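import Mathlib
import Pool.Graph.R_pool_sql_team_seeded_620a6dc7.H843.Final

set_option autoImplicit false

namespace Pool.Agent.Results.MP_e1e648_an.CoronaReduction

open MeasureTheory Filter Topology Metric Set
open scoped ComplexConjugate ENNReal
open Pool.Agent.Helper34.Dg Pool.Agent.H843

/-- `f` is (the boundary function of) an element of `QDA = D ∩ conj D ∩ H^∞`. As `H^∞ ⊆ D`, it is
enough that `f ∈ H^∞` and `conj f ∈ D`. -/
def QA (D : Submodule ℂ (T →ₘ[mu] ℂ)) (f : T → ℂ) : Prop :=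
  f ∈ HInf ∧ Mem D (fun t => conj (f t))

lemma QA.mul {D : Submodule ℂ (T →ₘ[mu] ℂ)} (hD : IsDouglas D) {f g : T → ℂ} (hf : QA D f)
    (hg : QA D g) : QA D (fun t => f t * g t) :=
  ⟨mul_HInf hf.1 hg.1, (Mem.mul hD hf.2 hg.2).congr (Eventually.of_forall fun t => by simp)⟩

lemma QA.add {D : Submodule ℂ (T →ₘ[mu] ℂ)} {f g : T → ℂ} (hf : QA D f)
    (hg : QA D g) : QA D (fun t => f t + g t) :=
  ⟨add_HInf hf.1 hg.1, (hf.2.add hg.2).congr (Eventually.of_forall fun t => by simp)⟩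

lemma QA.smul {D : Submodule ℂ (T →ₘ[mu] ℂ)} {f : T → ℂ} (hf : QA D f) (c : ℂ) :
    QA D (fun t => c * f t) :=
  ⟨smul_HInf hf.1 c, (hf.2.smul (conj c)).congr (Eventually.of_forall fun t => by simp)⟩

lemma QA.const {D : Submodule ℂ (T →ₘ[mu] ℂ)} (hD : IsDouglas D) (c : ℂ) :
    QA D (fun _ => c) :=
  ⟨const_HInf c, Mem.hinf hD (const_HInf (conj c))⟩

lemma QA.sum {D : Submodule ℂ (T →ₘ[mu] ℂ)} (hD : IsDouglas D) {ι : Type} (s : Finset ι)
    (f : ι → T → ℂ) (h : ∀ i, QA D (f i)) : QA D (fun t => ∑ i ∈ s, f i t) := by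
  classical
  induction s using Finset.induction_on with
  | empty => simpa using QA.const hD 0
  | insert j s hj ih =>
    have := (h j).add ih
    simpa [Finset.sum_insert hj] using this

/-- normalised form, from the library -/
lemma core' {D : Submodule ℂ (T →ₘ[mu] ℂ)} (hD : IsDouglas D)
    {f g : T → ℂ} (hf : QA D f) (hg : QA D g)
    {δ : ℝ} (hδ : 0 < δ) (hfg : ∀ z ∈ disc, δ ≤ ‖ext f z‖ + ‖ext g z‖)
    (hg0 : ∃ z ∈ disc, ext g z ≠ 0) :
    ∃ c w : T → ℂ, QA D c ∧ QA D w ∧ ∀ᵐ t ∂mu, (f t + c t * g t) * w t = 1 := by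
  obtain ⟨Mf, hMf0, hMf⟩ := exists_bound hf.1.1
  obtain ⟨Mg, hMg0, hMg⟩ := exists_bound hg.1.1
  set M : ℝ := 1 + Mf + Mg + δ with hM
  have hM0 : 0 < M := by linarith
  have hMc : (M : ℂ) ≠ 0 := by exact_mod_cast hM0.ne'
  have hf' := hf.smul (M : ℂ)⁻¹
  have hg' := hg.smul (M : ℂ)⁻¹
  have hn : ‖(M : ℂ)⁻¹‖ = M⁻¹ := by
    rw [norm_inv, Complex.norm_real, Real.norm_of_nonneg hM0.le]
  have hf1 : ∀ᵐ t ∂mu, ‖(M : ℂ)⁻¹ * f t‖ ≤ 1 := by
    filter_upwards [hMf] with t ht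
    rw [norm_mul, hn, inv_mul_le_iff₀ hM0, mul_one]
    exact ht.trans (by rw [hM]; linarith)
  have hg1 : ∀ᵐ t ∂mu, ‖(M : ℂ)⁻¹ * g t‖ ≤ 1 := by
    filter_upwards [hMg] with t ht
    rw [norm_mul, hn, inv_mul_le_iff₀ hM0, mul_one]
    exact ht.trans (by rw [hM]; linarith)
  have hex : ∀ (k : T → ℂ), k ∈ HInf → ∀ z ∈ disc, ext (fun t => (M : ℂ)⁻¹ * k t) z =
      (M : ℂ)⁻¹ * ext k z := fun k hk z hz =>
    ext_smul (memLp_integrable hk.1) _ (by simpa using hz)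
  have hδ' : ∀ z ∈ disc, M⁻¹ * δ ≤ ‖ext (fun t => (M : ℂ)⁻¹ * f t) z‖ +
      ‖ext (fun t => (M : ℂ)⁻¹ * g t) z‖ := by
    intro z hz
    rw [hex f hf.1 z hz, hex g hg.1 z hz, norm_mul, norm_mul, hn, ← mul_add]
    exact mul_le_mul_of_nonneg_left (hfg z hz) (by positivity)
  have hg0' : ∃ z ∈ disc, ext (fun t => (M : ℂ)⁻¹ * g t) z ≠ 0 := by
    obtain ⟨z, hz, hne⟩ := hg0
    refine ⟨z, hz, ?_⟩
    rw [hex g hg.1 z hz]
    exact mul_ne_zero (inv_ne_zero hMc) hne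
  have hδ1 : M⁻¹ * δ ≤ 1 := by
    rw [inv_mul_le_iff₀ hM0, mul_one, hM]
    linarith
  obtain ⟨c, w, hc, hcD, hw', hwD, hcw⟩ := core qcomp dexp (aak dexp) dbarF critF wolffF
    (extD extUH) divide (idem qcomp) (nz poisson) hD hf'.1 hg'.1 hf'.2
    hg'.2 hf1 hg1 (δ := M⁻¹ * δ) (by positivity) hδ1 hδ' hg0'
  refine ⟨c, fun t => (M : ℂ)⁻¹ * w t, ⟨hc, hcD⟩, QA.smul ⟨hw', hwD⟩ _, ?_⟩
  filter_upwards [hcw] with t ht
  linear_combination ht

/-- **Stable rank one for `QDA`: corona form and `n`-tuples.** Let `D` be a Douglas algebra and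
`QDA = D ∩ conj D ∩ H^∞`.

(1) (Corona theorem and stable rank one together.) If `f, g ∈ QDA` and `|f| + |g| ≥ δ > 0` on the
disc, then there is `c ∈ QDA` such that `f + c g` is invertible in `QDA`; in particular
`w f + (c w) g = 1` with `w ∈ QDA` invertible in `QDA` (its inverse is `f + c g`).

(2) If `f ∈ QDA` is bounded below on the disc then `f` is invertible in `QDA`.

(3) (`n`-tuples) If `f₀, …, f_n ∈ QDA` generate `QDA` as an ideal, then there are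
`c₁, …, c_n ∈ QDA` such that `f₀ + c₁ f₁ + … + c_n f_n` is invertible in `QDA`. -/
theorem result : ∀ D : Submodule ℂ (T →ₘ[mu] ℂ), IsDouglas D →
    (∀ f g : T → ℂ, QA D f → QA D g → ∀ δ : ℝ, 0 < δ →
      (∀ z ∈ disc, δ ≤ ‖ext f z‖ + ‖ext g z‖) →
      ∃ c w : T → ℂ, QA D c ∧ QA D w ∧ QA D (fun t => c t * w t) ∧
        QA D (fun t => f t + c t * g t) ∧
        (∀ᵐ t ∂mu, (f t + c t * g t) * w t = 1) ∧
        ∀ᵐ t ∂mu, w t * f t + (c t * w t) * g t = 1) ∧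
    (∀ f : T → ℂ, QA D f → ∀ δ : ℝ, 0 < δ → (∀ z ∈ disc, δ ≤ ‖ext f z‖) →
      ∃ w : T → ℂ, QA D w ∧ ∀ᵐ t ∂mu, f t * w t = 1) ∧
    (∀ (n : ℕ) (f u : Fin (n + 1) → T → ℂ), (∀ i, QA D (f i)) → (∀ i, QA D (u i)) →
      (∀ᵐ t ∂mu, ∑ i, u i t * f i t = 1) →
      ∃ (c : Fin n → T → ℂ) (w : T → ℂ), (∀ i, QA D (c i)) ∧ QA D w ∧
        ∀ᵐ t ∂mu, (f 0 t + ∑ i : Fin n, c i t * f i.succ t) * w t = 1) := by
  intro D hD
  have hinv : ∀ f : T → ℂ, QA D f → ∀ δ : ℝ, 0 < δ → (∀ z ∈ disc, δ ≤ ‖ext f z‖) →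
      ∃ w : T → ℂ, QA D w ∧ ∀ᵐ t ∂mu, f t * w t = 1 := by
    intro f hf δ hδ hb
    obtain ⟨c, w, hc, hw, hcw⟩ := core' hD hf hf hδ
      (fun z hz => by have := hb z hz; have := norm_nonneg (ext f z); linarith)
      ⟨0, by simp, by
        intro h0
        have := hb 0 (by simp)
        rw [h0, norm_zero] at this
        linarith⟩
    refine ⟨fun t => (1 + c t) * w t, QA.mul hD ((QA.const hD 1).add hc) hw, ?_⟩
    filter_upwards [hcw] with t ht
    linear_combination ht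
  refine ⟨?_, hinv, ?_⟩
  · intro f g hf hg δ hδ hfg
    have key : ∃ c w : T → ℂ, QA D c ∧ QA D w ∧ ∀ᵐ t ∂mu, (f t + c t * g t) * w t = 1 := by
      by_cases hg0 : ∃ z ∈ disc, ext g z ≠ 0
      · exact core' hD hf hg hδ hfg hg0
      · push Not at hg0
        obtain ⟨w, hw, hfw⟩ := hinv f hf δ hδ (fun z hz => by
          have := hfg z hz
          rw [hg0 z hz, norm_zero, add_zero] at this
          exact this)
        refine ⟨fun _ => 0, w, QA.const hD 0, hw, ?_⟩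
        filter_upwards [hfw] with t ht
        linear_combination ht
    obtain ⟨c, w, hc, hw, hcw⟩ := key
    refine ⟨c, w, hc, hw, hc.mul hD hw, hf.add (hc.mul hD hg), hcw, ?_⟩
    filter_upwards [hcw] with t ht
    linear_combination ht
  · intro n f u hf hu hfu
    have hh : QA D (fun t => ∑ i : Fin n, u i.succ t * f i.succ t) :=
      QA.sum hD Finset.univ _ fun i => (hu i.succ).mul hD (hf i.succ)
    obtain ⟨c, w, hc, hcD, hw, hwD, hcw⟩ := mainF D hD (f 0)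
      (fun t => ∑ i : Fin n, u i.succ t * f i.succ t) (u 0) (fun _ => 1) (hf 0).1 hh.1 (hu 0).1
      (const_HInf 1) (hf 0).2 hh.2 (by
        filter_upwards [hfu] with t ht
        rw [Fin.sum_univ_succ] at ht
        linear_combination ht)
    refine ⟨fun i t => c t * u i.succ t, w, fun i => QA.mul hD ⟨hc, hcD⟩ (hu i.succ), ⟨hw, hwD⟩, ?_⟩
    filter_upwards [hcw] with t ht
    rw [← ht, Finset.mul_sum]
    congr 2
    exact Finset.sum_congr rfl fun i _ => by ring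

end Pool.Agent.Results.MP_e1e648_an.CoronaReduction
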